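import Pool.Agent.helper84.WZ.SpecA

/-!
# WZ, module GS: Ginsburg-Spanier with uniform periods
-/

set_option autoImplicit false

namespace WZ

/-- a family of bounds over a finite index type can be made uniform -/
lemma GS_unif {ι : Type} [Finite ι] (G : ι → ℕ → Prop)
    (mono : ∀ i B B', B ≤ B' → G i B → G i B') (h : ∀ i, ∃ B, G i B) : ∃ B, ∀ i, G i B := by
  classical
  cases nonempty_fintype ι
  choose f hf using h
  exact ⟨Finset.univ.sup f, fun i => mono i _ _ (Finset.le_sup (Finset.mem_univ i)) (hf i)⟩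

/-- `B` bounds base points and periods of a linear decomposition of `X` -/
def GS_Dec {M : Type} [AddCommMonoid M] (sz : M → ℕ) (X : Set M) (B : ℕ) : Prop :=
  ∀ x ∈ X, ∃ (a : M) (P : Set M), sz a ≤ B ∧ (∀ π ∈ P, sz π ≤ B) ∧
    (∃ z ∈ AddSubmonoid.closure P, x = a + z) ∧ ∀ z ∈ AddSubmonoid.closure P, a + z ∈ X

lemma GS_Dec_mono {M : Type} [AddCommMonoid M] (sz : M → ℕ) (X : Set M) (B B' : ℕ) (h : B ≤ B')
    (hB : GS_Dec sz X B) : GS_Dec sz X B' := by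
  intro x hx
  obtain ⟨a, P, h1, h2, h3, h4⟩ := hB x hx
  exact ⟨a, P, h1.trans h, fun π hπ => (h2 π hπ).trans h, h3, h4⟩

lemma GS_lin {M : Type} [AddCommMonoid M] (sz : M → ℕ) (X : Set M) (h : IsSemilinearSet X) :
    ∃ B, GS_Dec sz X B := by
  classical
  obtain ⟨S, hfin, hlin, rfl⟩ := h
  have hsub : ∀ t : S, ∃ B, GS_Dec sz (t : Set M) B := by
    rintro ⟨t, ht⟩
    obtain ⟨a, P, hP, rfl⟩ := hlin t ht
    obtain ⟨B, hB⟩ := (hP.image sz).bddAbove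
    refine ⟨max (sz a) B, fun x hx => ⟨a, P, le_max_left _ _, fun π hπ =>
      (hB ⟨π, hπ, rfl⟩).trans (le_max_right _ _), ?_, fun z hz => ?_⟩⟩
    · obtain ⟨z, hz, rfl⟩ := hx
      exact ⟨z, hz, rfl⟩
    · exact ⟨z, hz, rfl⟩
  have : Finite S := hfin
  obtain ⟨B, hB⟩ := GS_unif (fun t : S => GS_Dec sz (t : Set M))
    (fun i B B' h => GS_Dec_mono sz _ B B' h) hsub
  refine ⟨B, fun x hx => ?_⟩
  obtain ⟨t, ht, hxt⟩ := hx
  obtain ⟨a, P, h1, h2, h3, h4⟩ := hB ⟨t, ht⟩ x hxt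
  exact ⟨a, P, h1, h2, h3, fun z hz => ⟨t, ht, h4 z hz⟩⟩

/-- bounded periods on at most two runs in `[r, s]` -/
def GS_Sup (B r s : ℕ) (Ps : Set (ℕ → ℕ)) : Prop :=
  ∀ π ∈ Ps, (∀ q, π q ≤ B) ∧ (∃ r' s' : ℕ, ∀ q, π q ≠ 0 → q = r' ∨ q = s') ∧
    ∀ q, π q ≠ 0 → r ≤ q ∧ q ≤ s

lemma GS_Sup_mono {B r s r₁ s₁ : ℕ} {Ps : Set (ℕ → ℕ)} (h : GS_Sup B r s Ps) (h1 : r₁ ≤ r)
    (h2 : s ≤ s₁) : GS_Sup B r₁ s₁ Ps := fun π hπ =>
  ⟨(h π hπ).1, (h π hπ).2.1, fun q hq => ⟨h1.trans ((h π hπ).2.2 q hq).1,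
    ((h π hπ).2.2 q hq).2.trans h2⟩⟩

lemma GS_Sup_union {B r s : ℕ} {P Q : Set (ℕ → ℕ)} (h : GS_Sup B r s P) (h' : GS_Sup B r s Q) :
    GS_Sup B r s (P ∪ Q) := by
  rintro π (hπ | hπ)
  · exact h π hπ
  · exact h' π hπ

lemma GS_NC_split {B r q s : ℕ} {P₁ P₂ : Set (ℕ → ℕ)} (h₁ : GS_Sup B r q P₁)
    (h₂ : GS_Sup B q s P₂) (n₁ : NC P₁) (n₂ : NC P₂) : NC (P₁ ∪ P₂) := by
  rintro π hπ π' hπ' r1 r2 s1 s2 h12 h23 h34 a b c d
  rcases hπ with hπ | hπ <;> rcases hπ' with hπ' | hπ'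
  · exact n₁ π hπ π' hπ' r1 r2 s1 s2 h12 h23 h34 a b c d
  · have := ((h₁ π hπ).2.2 s1 b).2
    have := ((h₂ π' hπ').2.2 r2 c).1
    omega
  · have := ((h₂ π hπ).2.2 r1 a).1
    have := ((h₁ π' hπ').2.2 r2 c).2
    omega
  · exact n₂ π hπ π' hπ' r1 r2 s1 s2 h12 h23 h34 a b c d

lemma GS_NC_spine {B r s : ℕ} {P Q : Set (ℕ → ℕ)} (h : GS_Sup B r s P) (n : NC P)
    (hQ : ∀ π ∈ Q, ∀ q, π q ≠ 0 → q = r ∨ q = s) (hrs : r ≤ s) : NC (P ∪ Q) := by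
  rintro π hπ π' hπ' r1 r2 s1 s2 h12 h23 h34 a b c d
  rcases hπ with hπ | hπ <;> rcases hπ' with hπ' | hπ'
  · exact n π hπ π' hπ' r1 r2 s1 s2 h12 h23 h34 a b c d
  · have e1 := (h π hπ).2.2 r1 a
    have e2 := (h π hπ).2.2 s1 b
    have e3 := hQ π' hπ' r2 c
    have e4 := hQ π' hπ' s2 d
    omega
  · have e1 := hQ π hπ r1 a
    have e2 := hQ π hπ s1 b
    have e3 := (h π' hπ').2.2 r2 c
    have e4 := (h π' hπ').2.2 s2 d
    omega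
  · have e1 := hQ π hπ r1 a
    have e2 := hQ π hπ s1 b
    have e3 := hQ π' hπ' r2 c
    have e4 := hQ π' hπ' s2 d
    omega

/-- the vector of a spine -/
def GS_f (r s : ℕ) : ℕ × ℕ →+ (ℕ → ℕ) where
  toFun x := fun q => (if q = r then x.1 else 0) + (if q = s then x.2 else 0)
  map_zero' := by
    funext q
    simp
  map_add' x y := by
    funext q
    simp only [Prod.fst_add, Prod.snd_add, Pi.add_apply]
    split_ifs <;> omega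

lemma GS_f_apply (r s : ℕ) (x : ℕ × ℕ) (q : ℕ) :
    GS_f r s x q = (if q = r then x.1 else 0) + (if q = s then x.2 else 0) := rfl

lemma GS_f_eq (r s : ℕ) (x : ℕ × ℕ) :
    (Pi.single r x.1 + Pi.single s x.2 : ℕ → ℕ) = GS_f r s x := by
  funext q
  rw [GS_f_apply, Pi.add_apply, Pi.single_apply, Pi.single_apply]

/-- what has to be proved for one vector -/
def GS_Good {T : Type} (S : Sys T) (σ : ℕ → T) (B b : ℕ) (β : S.St) (r s : ℕ) (e : ℕ → ℕ) :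
    Prop :=
  ∃ (a : ℕ → ℕ) (Ps : Set (ℕ → ℕ)), (∀ q, a q ≤ b) ∧ GS_Sup B r s Ps ∧ NC Ps ∧
    (∃ x ∈ AddSubmonoid.closure Ps, e = a + x) ∧
    ∀ x ∈ AddSubmonoid.closure Ps, S.DX σ β r s (a + x)

lemma GS_Good_mono {T : Type} {S : Sys T} {σ : ℕ → T} {B b b' : ℕ} {β : S.St} {r s : ℕ}
    {e : ℕ → ℕ} (h : b ≤ b') (hg : GS_Good S σ B b β r s e) : GS_Good S σ B b' β r s e := by
  obtain ⟨a, Ps, h1, h2⟩ := hg
  exact ⟨a, Ps, fun q => (h1 q).trans h, h2⟩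

lemma GS_step {T : Type} {S : Sys T} {σ : ℕ → T} {B b : ℕ} (hSPC : SPC_stmt) {β δ : S.St}
    {r s : ℕ} (hrs : r < s) {x : ℕ × ℕ}
    (hdec : GS_Dec (fun x : ℕ × ℕ => max x.1 x.2) {x : ℕ × ℕ | S.Sp (σ r) (σ s) β δ x} B)
    (hx : S.Sp (σ r) (σ s) β δ x) {y : ℕ → ℕ}
    (hy : GS_Good S σ (2 * B) b δ r s y) :
    GS_Good S σ (2 * B) (2 * B + b) β r s (y + Pi.single r x.1 + Pi.single s x.2) := by
  obtain ⟨a, Ps, h1, h2, h3, ⟨x₀, hx₀, rfl⟩, h5⟩ := hy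
  obtain ⟨a₃, P₃, g1, g2, ⟨z, hz, rfl⟩, g4⟩ := hdec x hx
  have hfQ : ∀ π ∈ GS_f r s '' P₃, ∀ q, π q ≠ 0 → q = r ∨ q = s := by
    rintro π ⟨w, hw, rfl⟩ q hq
    rw [GS_f_apply] at hq
    by_contra hne
    push Not at hne
    rw [if_neg hne.1, if_neg hne.2] at hq
    exact hq rfl
  have hfB : ∀ w : ℕ × ℕ, max w.1 w.2 ≤ B → ∀ q, GS_f r s w q ≤ 2 * B := by
    intro w hw q
    rw [GS_f_apply]
    have h1 : w.1 ≤ B := (le_max_left _ _).trans hw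
    have h2 : w.2 ≤ B := (le_max_right _ _).trans hw
    split_ifs <;> omega
  have hSupQ : GS_Sup (2 * B) r s (GS_f r s '' P₃) := by
    intro π hπ
    refine ⟨?_, ⟨r, s, hfQ π hπ⟩, fun q hq => ?_⟩
    · obtain ⟨w, hw, rfl⟩ := hπ
      exact hfB w (g2 w hw)
    · rcases hfQ π hπ q hq with h | h <;> omega
  have hf := GS_f_eq r s
  refine ⟨a + GS_f r s a₃, Ps ∪ GS_f r s '' P₃, fun q => ?_, GS_Sup_union h2 hSupQ,
    GS_NC_spine h2 h3 hfQ hrs.le, ?_, ?_⟩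
  · have e1 := h1 q
    have e2 := hfB a₃ g1 q
    rw [Pi.add_apply]
    omega
  · refine ⟨x₀ + GS_f r s z, ?_, ?_⟩
    · rw [AddSubmonoid.closure_union]
      refine AddSubmonoid.add_mem_sup hx₀ ?_
      rw [← AddMonoidHom.map_mclosure]
      exact ⟨z, hz, rfl⟩
    · rw [add_assoc (a + x₀), hf, map_add]
      exact add_add_add_comm _ _ _ _
  · intro w hw
    rw [AddSubmonoid.closure_union, AddSubmonoid.mem_sup] at hw
    obtain ⟨w₁, hw₁, w₂, hw₂, rfl⟩ := hw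
    rw [← AddMonoidHom.map_mclosure] at hw₂
    obtain ⟨u, hu, rfl⟩ := hw₂
    have k1 := hSPC T S σ β δ r s (a₃ + u) (a + w₁) hrs.le (g4 u hu) (h5 w₁ hw₁)
    rw [add_assoc (a + w₁), hf, map_add] at k1
    rw [add_add_add_comm]
    exact k1

/-- the bound for the base points -/
def GS_B₀ (B : ℕ) : ℕ → ℕ
  | 0 => B
  | l + 1 => 2 * B + (1 + 2 * GS_B₀ B l)

lemma GS_B₀_le (B l : ℕ) : B ≤ GS_B₀ B l := by
  cases l with
  | zero => exact le_rfl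
  | succ l => rw [GS_B₀]; omega

/-- the vector of a run -/
def GS_g (r : ℕ) : ℕ →+ (ℕ → ℕ) where
  toFun n := fun q => if q = r then n else 0
  map_zero' := by
    funext q
    simp
  map_add' x y := by
    funext q
    simp only [Pi.add_apply]
    split_ifs <;> omega

lemma GS_g_apply (r n q : ℕ) : GS_g r n q = if q = r then n else 0 := rfl

lemma GS_g_eq (r n : ℕ) : (Pi.single r n : ℕ → ℕ) = GS_g r n := by
  funext q
  rw [GS_g_apply, Pi.single_apply]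

lemma GS_base {T : Type} {S : Sys T} {σ : ℕ → T} {B b : ℕ} (hONE : ONE_stmt) {β : S.St}
    {r : ℕ} {e : ℕ → ℕ}
    (hdec : GS_Dec (id : ℕ → ℕ) {n : ℕ | S.Der β (List.replicate n (σ r))} B) (hb : B ≤ b)
    (hD : S.DX σ β r r e) : GS_Good S σ (2 * B) b β r r e := by
  obtain ⟨n, rfl, hn⟩ := (hONE T S σ β r e).1 hD
  obtain ⟨a₀, P, g1, g2, ⟨z, hz, rfl⟩, g4⟩ := hdec n hn
  have hsup : ∀ π ∈ GS_g r '' P, ∀ q, π q ≠ 0 → q = r := by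
    rintro π ⟨w, hw, rfl⟩ q hq
    rw [GS_g_apply] at hq
    by_contra hne
    rw [if_neg hne] at hq
    exact hq rfl
  have hbd : ∀ w : ℕ, w ≤ B → ∀ q, GS_g r w q ≤ B := by
    intro w hw q
    rw [GS_g_apply]
    split_ifs <;> omega
  refine ⟨GS_g r a₀, GS_g r '' P, fun q => (hbd a₀ g1 q).trans hb, ?_, ?_, ?_, ?_⟩
  · intro π hπ
    refine ⟨fun q => ?_, ⟨r, r, fun q hq => Or.inl (hsup π hπ q hq)⟩, fun q hq => ?_⟩
    · obtain ⟨w, hw, rfl⟩ := hπ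
      have h1 := hbd w (g2 w hw) q
      omega
    · have := hsup π hπ q hq
      omega
  · intro π hπ π' hπ' r1 r2 s1 s2 h12 h23 h34 a b c d
    have e1 := hsup π hπ r1 a
    have e2 := hsup π hπ s1 b
    omega
  · refine ⟨GS_g r z, ?_, ?_⟩
    · rw [← AddMonoidHom.map_mclosure]
      exact ⟨z, hz, rfl⟩
    · rw [GS_g_eq, map_add]
  · intro w hw
    rw [← AddMonoidHom.map_mclosure] at hw
    obtain ⟨u, hu, rfl⟩ := hw
    refine (hONE T S σ β r _).2 ⟨a₀ + u, ?_, g4 u hu⟩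
    rw [GS_g_eq, map_add]

lemma GS_rd {T : Type} {S : Sys T} {σ : ℕ → T} {B b : ℕ} {δ γ : S.St} {r q s : ℕ}
    {e : ℕ → ℕ} (hrd : S.rd δ (σ q) γ) (hrq : r < q) (h : GS_Good S σ B b γ q s e) :
    GS_Good S σ B (1 + 2 * b) δ r s (e + Pi.single q 1) := by
  obtain ⟨a, Ps, h1, h2, h3, ⟨x₀, hx₀, rfl⟩, h5⟩ := h
  refine ⟨a + Pi.single q 1, Ps, fun q' => ?_, GS_Sup_mono h2 hrq.le le_rfl, h3,
    ⟨x₀, hx₀, add_right_comm _ _ _⟩, fun w hw => ?_⟩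
  · have e1 := h1 q'
    rw [Pi.add_apply, Pi.single_apply]
    split_ifs <;> omega
  · rw [add_right_comm]
    exact Sys.DX.rd hrd hrq.le (h5 w hw)

lemma GS_sp {T : Type} {S : Sys T} {σ : ℕ → T} {B b : ℕ} {δ α γ : S.St} {r q s : ℕ}
    {e₁ e₂ : ℕ → ℕ} (hsp : S.sp δ α γ) (hrq : r < q) (hqs : q < s)
    (h : GS_Good S σ B b α r q e₁) (h' : GS_Good S σ B b γ q s e₂) :
    GS_Good S σ B (1 + 2 * b) δ r s (e₁ + e₂) := by
  obtain ⟨a, Ps, h1, h2, h3, ⟨x₀, hx₀, rfl⟩, h5⟩ := h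
  obtain ⟨a', Ps', h1', h2', h3', ⟨x₀', hx₀', rfl⟩, h5'⟩ := h'
  refine ⟨a + a', Ps ∪ Ps', fun q' => ?_, GS_Sup_union (GS_Sup_mono h2 le_rfl hqs.le)
    (GS_Sup_mono h2' hrq.le le_rfl), GS_NC_split h2 h2' h3 h3',
    ⟨x₀ + x₀', ?_, add_add_add_comm _ _ _ _⟩, fun w hw => ?_⟩
  · have e1 := h1 q'
    have e2 := h1' q'
    rw [Pi.add_apply]
    omega
  · rw [AddSubmonoid.closure_union]
    exact AddSubmonoid.add_mem_sup hx₀ hx₀'
  · rw [AddSubmonoid.closure_union, AddSubmonoid.mem_sup] at hw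
    obtain ⟨w₁, hw₁, w₂, hw₂, rfl⟩ := hw
    rw [add_add_add_comm]
    exact Sys.DX.sp hsp (h5 w₁ hw₁) (h5' w₂ hw₂)

/-- **GS** -/
theorem GS (hK1 : K1_stmt) (hK2 : K2_stmt) (hONE : ONE_stmt) (hSPN : SPN_stmt)
    (hSPC : SPC_stmt) (hWDA : WDA_stmt) : GS_stmt := by
  intro T _ S
  have := S.fin
  obtain ⟨B₁, hB₁⟩ := GS_unif (ι := S.St × T)
    (fun i => GS_Dec (id : ℕ → ℕ) {n : ℕ | S.Der i.1 (List.replicate n i.2)})
    (fun i B B' h => GS_Dec_mono _ _ B B' h) (fun i => GS_lin _ _ (hK1 T S i.2 i.1))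
  obtain ⟨B₂, hB₂⟩ := GS_unif (ι := (T × T) × (S.St × S.St))
    (fun i => GS_Dec (fun x : ℕ × ℕ => max x.1 x.2)
      {x : ℕ × ℕ | S.Sp i.1.1 i.1.2 i.2.1 i.2.2 x})
    (fun i B B' h => GS_Dec_mono _ _ B B' h)
    (fun i => GS_lin _ _ (hK2 T S i.1.1 i.1.2 i.2.1 i.2.2))
  obtain ⟨B, hle₁, hle₂⟩ : ∃ B, B₁ ≤ B ∧ B₂ ≤ B := ⟨max B₁ B₂, le_max_left _ _, le_max_right _ _⟩
  have hD₁ : ∀ (β : S.St) (a : T),
      GS_Dec (id : ℕ → ℕ) {n : ℕ | S.Der β (List.replicate n a)} B :=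
    fun β a => GS_Dec_mono _ _ _ _ hle₁ (hB₁ (β, a))
  have hD₂ : ∀ (a b : T) (β δ : S.St),
      GS_Dec (fun x : ℕ × ℕ => max x.1 x.2) {x : ℕ × ℕ | S.Sp a b β δ x} B :=
    fun a b β δ => GS_Dec_mono _ _ _ _ hle₂ (hB₂ ((a, b), (β, δ)))
  have key : ∀ (σ : ℕ → T) (l : ℕ) (β : S.St) (r s : ℕ) (e : ℕ → ℕ), s - r ≤ l →
      S.DX σ β r s e → GS_Good S σ (2 * B) (GS_B₀ B l) β r s e := by
    intro σ l
    induction l with
    | zero =>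
      intro β r s e hl hD
      have hrs := (hWDA T S σ β r s e hD).1
      obtain rfl : r = s := by omega
      exact GS_base hONE (hD₁ β (σ r)) (GS_B₀_le B 0) hD
    | succ l ih =>
      intro β r s e hl hD
      have hrs := (hWDA T S σ β r s e hD).1
      rcases eq_or_lt_of_le hrs with hEq | hlt
      · subst hEq
        exact GS_base hONE (hD₁ β (σ r)) (GS_B₀_le B (l + 1)) hD
      · obtain ⟨δ, x, y, hx, rfl, hbot⟩ := hSPN T S σ β r s e hlt hD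
        have hy : GS_Good S σ (2 * B) (1 + 2 * GS_B₀ B l) δ r s y := by
          rcases hbot with ⟨γ, q, e', hrd, hrq, hqs, hD', rfl⟩ |
            ⟨α, γ, q, e₁, e₂, hsp, hrq, hqs, hDl, hDr, rfl⟩
          · exact GS_rd hrd hrq (ih γ q s e' (by omega) hD')
          · exact GS_sp hsp hrq hqs (ih α r q e₁ (by omega) hDl) (ih γ q s e₂ (by omega) hDr)
        exact GS_step hSPC hlt (hD₂ (σ r) (σ s) β δ) hx hy
  refine ⟨2 * B, GS_B₀ B, fun σ β r s e hD => ?_⟩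
  obtain ⟨a, Ps, h1, h2, h3, h4, h5⟩ := key σ (s - r) β r s e le_rfl hD
  exact ⟨a, Ps, h1, h2, h3, h4, h5⟩

end WZ
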